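import Pool.Agent.T9h94.CZ.Spec

/-!
# (A) of the CZ group: markings close to `Z` are matched with `Z` by an automorphism of the
abelianization
-/

set_option autoImplicit false

namespace Pool.Agent.T9h53.CZ

open Pool.Agent.T9h94.CZ

theorem noeth {A F : Type} [CommGroup A] [Group F] [Group.FG F] (f : F →* A)
    (hf : Function.Surjective f) : IsNoetherian ℤ (Additive A) := by
  have h1 : Group.FG A := Group.fg_of_surjective hf
  have h2 : AddGroup.FG (Additive A) := by
    rw [← GroupFG.iff_add_fg]; exact h1
  have h3 : Module.Finite ℤ (Additive A) := Module.Finite.iff_addGroup_fg.2 h2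
  exact isNoetherian_of_isNoetherianRing_of_finite ℤ _

theorem sMatch : SMatch := by
  intro α M _ _ Z hZ
  classical
  have hN1 : IsNoetherian ℤ (Additive (Abelianization (FreeGroup α))) :=
    noeth (Abelianization.of : FreeGroup α →* _) (QuotientGroup.mk_surjective)
  have hN2 : IsNoetherian ℤ (Additive (Abelianization M)) :=
    noeth (F := FreeGroup α) (Abelianization.of.comp (FreeGroup.lift Z))
      ((QuotientGroup.mk_surjective).comp hZ)
  set K : Subgroup (FreeGroup α) := (FreeGroup.lift Z).ker with hK
  set S0 : Submodule ℤ (Additive (Abelianization (FreeGroup α))) :=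
    AddSubgroup.toIntSubmodule (Subgroup.toAddSubgroup (K.map Abelianization.of)) with hS0
  obtain ⟨S, hS⟩ := IsNoetherian.noetherian S0
  have hmem : ∀ s ∈ S, ∃ b : FreeGroup α, b ∈ K ∧
      Additive.ofMul (Abelianization.of b) = s := by
    intro s hs
    have : s ∈ S0 := by rw [← hS]; exact Submodule.subset_span hs
    obtain ⟨b, hb, hbs⟩ := this
    exact ⟨b, hb, hbs⟩
  choose! b hb1 hb2 using hmem
  refine ⟨(S.image b : Finset (FreeGroup α)), Finset.finite_toSet _, ?_⟩
  intro Z' hZ' hC
  set φ' : FreeGroup α →* Abelianization M := Abelianization.of.comp (FreeGroup.lift Z') with hφ'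
  have hker : K ≤ φ'.ker := by
    have hle : S0 ≤ AddSubgroup.toIntSubmodule
        (Subgroup.toAddSubgroup (Abelianization.lift φ').ker) := by
      rw [← hS, Submodule.span_le]
      intro s hs
      have hs' : s ∈ S := hs
      have h1 : FreeGroup.lift Z (b s) = 1 := hb1 s hs'
      have h2 : FreeGroup.lift Z' (b s) = 1 := by
        refine (hC (b s) ?_).2 h1
        exact Finset.mem_coe.2 (Finset.mem_image_of_mem b hs')
      have h3 : Abelianization.lift φ' (Abelianization.of (b s)) = 1 := by
        rw [Abelianization.lift_apply_of, hφ', MonoidHom.comp_apply, h2, map_one]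
      rw [← hb2 s hs']
      exact h3
    intro x hx
    have h1 : Additive.ofMul (Abelianization.of x) ∈ S0 := ⟨x, hx, rfl⟩
    have h2 : Abelianization.lift φ' (Abelianization.of x) = 1 := hle h1
    rw [Abelianization.lift_apply_of] at h2
    exact h2
  set g₁ : M →* Abelianization M :=
    (MonoidHom.liftOfSurjective (FreeGroup.lift Z) hZ) ⟨φ', hker⟩ with hg₁
  have hg₁' : ∀ w, g₁ (FreeGroup.lift Z w) = φ' w := by
    intro w
    exact MonoidHom.liftOfRightInverse_comp_apply _ _ _ ⟨φ', hker⟩ w
  set g₀ : Abelianization M →* Abelianization M := Abelianization.lift g₁ with hg₀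
  have hg₀' : ∀ w, g₀ (Abelianization.of (FreeGroup.lift Z w)) =
      Abelianization.of (FreeGroup.lift Z' w) := by
    intro w
    rw [hg₀, Abelianization.lift_apply_of, hg₁']
    rfl
  have hsurj : Function.Surjective g₀ := by
    intro y
    obtain ⟨m, rfl⟩ := QuotientGroup.mk_surjective y
    obtain ⟨w, rfl⟩ := hZ' m
    exact ⟨_, hg₀' w⟩
  have hinj : Function.Injective g₀ := by
    have := IsNoetherian.injective_of_surjective_endomorphism
      (MonoidHom.toAdditive g₀).toIntLinearMap hsurj
    exact this
  exact ⟨MulEquiv.ofBijective g₀ ⟨hinj, hsurj⟩, hg₀'⟩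

end Pool.Agent.T9h53.CZ
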